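import Pool.Agent.Helper81.Cayley.Defs

set_option autoImplicit false

namespace Pool.Agent.Helper81.Cayley

theorem cayleyGraph_adj {G : Type*} [Group G] {H : Set G} {x y : G} :
    (cayleyGraph H).Adj x y ↔ x ≠ y ∧ ∃ h ∈ H, y = h * x ∨ y = h⁻¹ * x := by
  unfold cayleyGraph
  rw [SimpleGraph.fromRel_adj]
  constructor
  · rintro ⟨hne, ⟨h, hH, rfl⟩ | ⟨h, hH, rfl⟩⟩
    · exact ⟨hne, h, hH, Or.inl rfl⟩
    · exact ⟨hne, h, hH, Or.inr (by group)⟩
  · rintro ⟨hne, h, hH, rfl | rfl⟩
    · exact ⟨hne, Or.inl ⟨h, hH, rfl⟩⟩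
    · exact ⟨hne, Or.inr ⟨h, hH, by group⟩⟩

/-- The elements of `G` that are not in the subgroup generated by the smaller elements, for a
fixed well-order of `G`. -/
def semiGen (G : Type*) [Group G] : Set G :=
  {g | g ∉ Subgroup.closure {g' : G | WellOrderingRel g' g}}

theorem one_notMem_semiGen (G : Type*) [Group G] : (1 : G) ∉ semiGen G := by
  intro h
  exact h (Subgroup.one_mem _)

theorem closure_semiGen (G : Type*) [Group G] : Subgroup.closure (semiGen G) = ⊤ := by
  rw [Subgroup.eq_top_iff']
  intro g
  induction g using (IsWellFounded.wf (r := (WellOrderingRel : G → G → Prop))).induction with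
  | _ g ih =>
    by_cases hg : g ∈ semiGen G
    · exact Subgroup.subset_closure hg
    · have hg' : g ∈ Subgroup.closure {g' : G | WellOrderingRel g' g} := by
        by_contra hcon
        exact hg hcon
      exact (Subgroup.closure_le _).mpr (fun g' hg' => ih g' hg') hg'

/-- The key property: for a nonempty finite set `P` of adjacent pairs in the Cayley graph of
`semiGen G` there are a subgroup `N` and an element `α` such that the two elements of each pair
of `P` either are in the same right coset of `N` or differ by the factor `α` or `α⁻¹`, and the two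
elements of some pair of `P` are in different right cosets of `N`. -/
theorem exists_max_label {G : Type*} [Group G] (P : Finset (G × G)) (hP : P.Nonempty)
    (hadj : ∀ q ∈ P, (cayleyGraph (semiGen G)).Adj q.1 q.2) :
    ∃ (N : Subgroup G) (α : G),
      (∀ q ∈ P, q.2 * q.1⁻¹ ∈ N ∨ q.2 = α * q.1 ∨ q.2 = α⁻¹ * q.1) ∧
      ∃ q ∈ P, q.2 * q.1⁻¹ ∉ N := by
  classical
  let _ : LinearOrder G := linearOrderOfSTO (WellOrderingRel : G → G → Prop)
  have hlt : ∀ a b : G, a < b ↔ WellOrderingRel a b := fun a b => Iff.rfl
  -- choose a label of each adjacent pair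
  have hlab : ∀ q : G × G, (cayleyGraph (semiGen G)).Adj q.1 q.2 →
      ∃ h ∈ semiGen G, q.2 = h * q.1 ∨ q.2 = h⁻¹ * q.1 := fun q hq =>
    (cayleyGraph_adj.mp hq).2
  choose! lab hlab1 hlab2 using hlab
  obtain ⟨q, hqP, hqmax⟩ := Finset.exists_max_image P lab hP
  have hqadj := hadj q hqP
  refine ⟨Subgroup.closure {g' : G | WellOrderingRel g' (lab q)}, lab q, ?_, q, hqP, ?_⟩
  · intro r hr
    have hle := hqmax r hr
    have hxy := hadj r hr
    rcases lt_or_eq_of_le hle with h | h
    · left
      have hin : lab r ∈ Subgroup.closure {g' : G | WellOrderingRel g' (lab q)} :=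
        Subgroup.subset_closure ((hlt _ _).mp h)
      rcases hlab2 r hxy with h2 | h2
      · rw [h2, mul_inv_cancel_right]; exact hin
      · rw [h2, mul_inv_cancel_right]; exact Subgroup.inv_mem _ hin
    · right
      rw [← h]
      exact hlab2 r hxy
  · have hnot : lab q ∉ Subgroup.closure {g' : G | WellOrderingRel g' (lab q)} := hlab1 q hqadj
    intro hcon
    rcases hlab2 q hqadj with h2 | h2
    · rw [h2, mul_inv_cancel_right] at hcon
      exact hnot hcon
    · rw [h2, mul_inv_cancel_right] at hcon
      exact hnot ((Subgroup.inv_mem_iff _).mp hcon)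

end Pool.Agent.Helper81.Cayley
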