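import Pool.Agent.Helper81.Cayley.Semi

set_option autoImplicit false

namespace Pool.Agent.Helper81.Cayley

open SimpleGraph

/-- Three elements `u i` and five elements `v j` of `G` cannot be completely joined in the Cayley
graph of `semiGen G`. -/
theorem no_three_five {G : Type*} [Group G] (u : Fin 3 → G) (v : Fin 5 → G)
    (hu : Function.Injective u) (hv : Function.Injective v)
    (hadj : ∀ i j, (cayleyGraph (semiGen G)).Adj (u i) (v j)) : False := by
  classical
  let P : Finset (G × G) := (Finset.univ : Finset (Fin 3 × Fin 5)).image fun p => (u p.1, v p.2)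
  have hP : P.Nonempty := ⟨(u 0, v 0), Finset.mem_image.mpr ⟨(0, 0), Finset.mem_univ _, rfl⟩⟩
  have hPadj : ∀ q ∈ P, (cayleyGraph (semiGen G)).Adj q.1 q.2 := by
    intro q hq
    obtain ⟨p, -, rfl⟩ := Finset.mem_image.mp hq
    exact hadj p.1 p.2
  obtain ⟨N, α, h1, q, hq, hqN⟩ := exists_max_label P hP hPadj
  obtain ⟨⟨i₀, j₀⟩, -, rfl⟩ := Finset.mem_image.mp hq
  have h1' : ∀ i j, v j * (u i)⁻¹ ∈ N ∨ v j = α * u i ∨ v j = α⁻¹ * u i := fun i j =>
    h1 _ (Finset.mem_image.mpr ⟨(i, j), Finset.mem_univ _, rfl⟩)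
  -- for each `i`, at most two `j` are in a different coset
  have hrow : ∀ i, (Finset.univ.filter fun j => v j * (u i)⁻¹ ∉ N).card ≤ 2 := by
    intro i
    have hsub : (Finset.univ.filter fun j => v j * (u i)⁻¹ ∉ N).image v ⊆
        {α * u i, α⁻¹ * u i} := by
      intro x hx
      obtain ⟨j, hj, rfl⟩ := Finset.mem_image.mp hx
      rw [Finset.mem_filter] at hj
      rcases h1' i j with h | h | h
      · exact absurd h hj.2
      · rw [h]; exact Finset.mem_insert_self _ _
      · rw [h]; exact Finset.mem_insert_of_mem (Finset.mem_singleton_self _)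
    rw [← Finset.card_image_of_injective _ hv]
    exact le_trans (Finset.card_le_card hsub) Finset.card_le_two
  -- for each `j`, at most two `i` are in a different coset
  have hcol : ∀ j, (Finset.univ.filter fun i => v j * (u i)⁻¹ ∉ N).card ≤ 2 := by
    intro j
    have hsub : (Finset.univ.filter fun i => v j * (u i)⁻¹ ∉ N).image u ⊆
        {α⁻¹ * v j, α * v j} := by
      intro x hx
      obtain ⟨i, hi, rfl⟩ := Finset.mem_image.mp hx
      rw [Finset.mem_filter] at hi
      rcases h1' i j with h | h | h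
      · exact absurd h hi.2
      · rw [h, inv_mul_cancel_left]; exact Finset.mem_insert_self _ _
      · rw [h, mul_inv_cancel_left]; exact Finset.mem_insert_of_mem (Finset.mem_singleton_self _)
    rw [← Finset.card_image_of_injective _ hu]
    exact le_trans (Finset.card_le_card hsub) Finset.card_le_two
  -- some `i₁` is in the coset of `v j₀`
  obtain ⟨i₁, hi₁⟩ : ∃ i₁, v j₀ * (u i₁)⁻¹ ∈ N := by
    by_contra hcon
    push Not at hcon
    have h3 : (Finset.univ.filter fun i => v j₀ * (u i)⁻¹ ∉ N) = Finset.univ :=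
      Finset.filter_true_of_mem fun i _ => hcon i
    have := hcol j₀
    rw [h3, Finset.card_univ, Fintype.card_fin] at this
    omega
  -- the sets of `j` in the cosets of `u i₀` and `u i₁` are disjoint and have at least three elements
  have hge : ∀ i, 3 ≤ (Finset.univ.filter fun j => v j * (u i)⁻¹ ∈ N).card := by
    intro i
    have h4 := Finset.card_filter_add_card_filter_not
      (s := (Finset.univ : Finset (Fin 5))) (fun j => v j * (u i)⁻¹ ∈ N)
    rw [Finset.card_univ, Fintype.card_fin] at h4
    have h5 := hrow i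
    omega
  have hdisj : Disjoint (Finset.univ.filter fun j => v j * (u i₀)⁻¹ ∈ N)
      (Finset.univ.filter fun j => v j * (u i₁)⁻¹ ∈ N) := by
    rw [Finset.disjoint_left]
    intro j hj0 hj1
    rw [Finset.mem_filter] at hj0 hj1
    apply hqN
    have h6 : v j₀ * (u i₀)⁻¹ = (v j₀ * (u i₁)⁻¹) * (v j * (u i₁)⁻¹)⁻¹ * (v j * (u i₀)⁻¹) := by
      group
    simp only
    rw [h6]
    exact N.mul_mem (N.mul_mem hi₁ (N.inv_mem hj1.2)) hj0.2
  have h7 := Finset.card_union_of_disjoint hdisj
  have h8 := Finset.card_le_univ ((Finset.univ.filter fun j => v j * (u i₀)⁻¹ ∈ N) ∪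
      (Finset.univ.filter fun j => v j * (u i₁)⁻¹ ∈ N))
  rw [Fintype.card_fin] at h8
  have h9 := hge i₀
  have h10 := hge i₁
  omega

/-- `K_{m,n}` is avoidable when `m ≥ 3` and `n ≥ 5`. -/
theorem avoidable_of_le {m n : ℕ} (hm : 3 ≤ m) (hn : 5 ≤ n) :
    Avoidable (completeBipartiteGraph (Fin m) (Fin n)) := by
  intro G _
  refine ⟨semiGen G, one_notMem_semiGen G, closure_semiGen G, ?_⟩
  rintro ⟨f⟩
  have hinj : Function.Injective f := f.injective
  refine no_three_five (fun i : Fin 3 => f (Sum.inl (Fin.castLE hm i)))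
    (fun j : Fin 5 => f (Sum.inr (Fin.castLE hn j))) ?_ ?_ ?_
  · intro i i' h
    have := hinj h
    simpa using this
  · intro j j' h
    have := hinj h
    simpa using this
  · intro i j
    apply f.toHom.map_adj
    simp

/-! ### The quaternion group of order eight forces `K_{4,4}` -/

/-- The four vertices on the left side. -/
def leftQ (h h' : QuaternionGroup 2) : Fin 4 → QuaternionGroup 2 :=
  ![1, h * h, h * h', h' * h]

/-- The four vertices on the right side. -/
def rightQ (h h' : QuaternionGroup 2) : Fin 4 → QuaternionGroup 2 :=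
  ![h, h⁻¹, h', h'⁻¹]

theorem quaternion_check : ∀ h h' : QuaternionGroup 2,
    h * h ≠ 1 → h' ≠ 1 → h' ≠ h → h' ≠ h * h → h' ≠ h * h * h →
    (∀ i j, ∃ s ∈ [h, h'], rightQ h h' j = s * leftQ h h' i ∨
      rightQ h h' j = s⁻¹ * leftQ h h' i) ∧
    (∀ i j, leftQ h h' i ≠ rightQ h h' j) ∧
    (∀ i j, leftQ h h' i = leftQ h h' j → i = j) ∧
    (∀ i j, rightQ h h' i = rightQ h h' j → i = j) := by
  decide

theorem center_check : ∀ x y : QuaternionGroup 2, x * x = 1 → y * y = 1 →
    (x * y) * (x * y) = 1 ∧ x⁻¹ * x⁻¹ = 1 := by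
  decide

theorem cyclic_check : ∀ k x y : QuaternionGroup 2,
    (x = 1 ∨ x = k ∨ x = k * k ∨ x = k * k * k) → (y = 1 ∨ y = k ∨ y = k * k ∨ y = k * k * k) →
    (x * y = 1 ∨ x * y = k ∨ x * y = k * k ∨ x * y = k * k * k) ∧
    (x⁻¹ = 1 ∨ x⁻¹ = k ∨ x⁻¹ = k * k ∨ x⁻¹ = k * k * k) := by
  decide

theorem exists_order_four : ∃ y : QuaternionGroup 2, y * y ≠ 1 := by decide

theorem exists_outside : ∀ k : QuaternionGroup 2,
    ∃ y : QuaternionGroup 2, ¬ (y = 1 ∨ y = k ∨ y = k * k ∨ y = k * k * k) := by
  decide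

/-- Every Cayley graph of a group isomorphic to the quaternion group of order eight contains
`K_{m,n}` for `m, n ≤ 4`. -/
theorem contains_of_quaternion {G : Type*} [Group G] (e : G ≃* QuaternionGroup 2) (H : Set G)
    (hH : Subgroup.closure H = ⊤) {m n : ℕ} (hm : m ≤ 4) (hn : n ≤ 4) :
    (completeBipartiteGraph (Fin m) (Fin n)).IsContained (cayleyGraph H) := by
  obtain ⟨h, hhH, hh⟩ : ∃ h ∈ H, e h * e h ≠ 1 := by
    by_contra hcon
    push Not at hcon
    have hall : ∀ x ∈ Subgroup.closure H, e x * e x = 1 := by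
      intro x hx
      induction hx using Subgroup.closure_induction with
      | mem x hx => exact hcon x hx
      | one => simp
      | mul x y _ _ hx hy => rw [map_mul]; exact (center_check _ _ hx hy).1
      | inv x _ hx => rw [map_inv]; exact (center_check _ _ hx hx).2
    obtain ⟨y, hy⟩ := exists_order_four
    apply hy
    have := hall (e.symm y) (by rw [hH]; trivial)
    simpa using this
  obtain ⟨h', hhH', hh'⟩ : ∃ h' ∈ H, ¬ (e h' = 1 ∨ e h' = e h ∨ e h' = e h * e h ∨
      e h' = e h * e h * e h) := by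
    by_contra hcon
    push Not at hcon
    have hall : ∀ x ∈ Subgroup.closure H, (e x = 1 ∨ e x = e h ∨ e x = e h * e h ∨
        e x = e h * e h * e h) := by
      intro x hx
      induction hx using Subgroup.closure_induction with
      | mem x hx => exact hcon x hx
      | one => exact Or.inl (map_one e)
      | mul x y _ _ hx hy => rw [map_mul]; exact (cyclic_check _ _ _ hx hy).1
      | inv x _ hx => rw [map_inv]; exact (cyclic_check _ _ _ hx hx).2
    obtain ⟨y, hy⟩ := exists_outside (e h)
    apply hy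
    have := hall (e.symm y) (by rw [hH]; trivial)
    simpa using this
  push Not at hh'
  obtain ⟨h1, h2, h3, h4⟩ := quaternion_check (e h) (e h') hh hh'.1 hh'.2.1 hh'.2.2.1 hh'.2.2.2
  let F : Fin m ⊕ Fin n → G := fun w =>
    match w with
    | Sum.inl i => e.symm (leftQ (e h) (e h') (Fin.castLE hm i))
    | Sum.inr j => e.symm (rightQ (e h) (e h') (Fin.castLE hn j))
  have key : ∀ i j, (cayleyGraph H).Adj (F (Sum.inl i)) (F (Sum.inr j)) := by
    intro i j
    rw [cayleyGraph_adj]
    refine ⟨fun heq => h2 _ _ (e.symm.injective heq), ?_⟩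
    obtain ⟨s, hs, hs'⟩ := h1 (Fin.castLE hm i) (Fin.castLE hn j)
    obtain ⟨t, ht, rfl⟩ : ∃ t ∈ H, e t = s := by
      rcases List.mem_pair.mp hs with rfl | rfl
      · exact ⟨h, hhH, rfl⟩
      · exact ⟨h', hhH', rfl⟩
    refine ⟨t, ht, ?_⟩
    rcases hs' with hs' | hs'
    · left
      apply e.injective
      simp only [F, map_mul, MulEquiv.apply_symm_apply]
      exact hs'
    · right
      apply e.injective
      simp only [F, map_mul, map_inv, MulEquiv.apply_symm_apply]
      exact hs'
  refine ⟨⟨⟨F, ?_⟩, ?_⟩⟩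
  · intro a b hab
    rcases a with i | i <;> rcases b with j | j
    · simp at hab
    · exact key i j
    · exact (key j i).symm
    · simp at hab
  · intro a b hab
    rcases a with i | i <;> rcases b with j | j
    · have := h3 _ _ (e.symm.injective hab)
      rw [Fin.castLE_inj] at this
      rw [this]
    · exact absurd (e.symm.injective hab) (h2 _ _)
    · exact absurd (e.symm.injective hab).symm (h2 _ _)
    · have := h4 _ _ (e.symm.injective hab)
      rw [Fin.castLE_inj] at this
      rw [this]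

universe u

/-- `K_{m,n}` is unavoidable when `m, n ≤ 4`. -/
theorem not_avoidable_of_le {m n : ℕ} (hm : m ≤ 4) (hn : n ≤ 4) :
    ¬ Avoidable.{u} (completeBipartiteGraph (Fin m) (Fin n)) := by
  intro h
  obtain ⟨H, -, hH, hcon⟩ := h (ULift.{u} (QuaternionGroup 2))
  exact hcon (contains_of_quaternion MulEquiv.ulift H hH hm hn)

end Pool.Agent.Helper81.Cayley
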