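import Pool.Agent.Helper81.Cayley.Defs

/-!
# Groups in which every generating set has many elements with a common nontrivial square
-/

set_option autoImplicit false

namespace Pool.Agent.Helper81.Cayley

open Cardinal SimpleGraph

universe u

/-- The underlying type of the central extension of `V` by `W` given by a bilinear map. -/
structure TwoStep {V W : Type u} [AddCommGroup V] [AddCommGroup W] [Module (ZMod 2) V]
    [Module (ZMod 2) W] (b : V →ₗ[ZMod 2] V →ₗ[ZMod 2] W) where
  w : W
  v : V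

namespace TwoStep

variable {V W : Type u} [AddCommGroup V] [AddCommGroup W] [Module (ZMod 2) V]
    [Module (ZMod 2) W] {b : V →ₗ[ZMod 2] V →ₗ[ZMod 2] W}

theorem ext' {x y : TwoStep b} (h1 : x.w = y.w) (h2 : x.v = y.v) : x = y := by
  cases x; cases y; simp_all

instance : Mul (TwoStep b) := ⟨fun x y => ⟨x.w + y.w + b x.v y.v, x.v + y.v⟩⟩
instance : One (TwoStep b) := ⟨⟨0, 0⟩⟩
instance : Inv (TwoStep b) := ⟨fun x => ⟨-x.w + b x.v x.v, -x.v⟩⟩

theorem mul_w (x y : TwoStep b) : (x * y).w = x.w + y.w + b x.v y.v := rfl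
theorem mul_v (x y : TwoStep b) : (x * y).v = x.v + y.v := rfl
theorem one_w : (1 : TwoStep b).w = 0 := rfl
theorem one_v : (1 : TwoStep b).v = 0 := rfl
theorem inv_w (x : TwoStep b) : (x⁻¹).w = -x.w + b x.v x.v := rfl
theorem inv_v (x : TwoStep b) : (x⁻¹).v = -x.v := rfl

instance : Group (TwoStep b) where
  mul_assoc x y z := by
    apply ext'
    · simp only [mul_w, mul_v, map_add, LinearMap.add_apply]
      abel
    · simp only [mul_v, add_assoc]
  one_mul x := by
    apply ext'
    · simp [mul_w, one_w, one_v]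
    · simp [mul_v, one_v]
  mul_one x := by
    apply ext'
    · simp [mul_w, one_w, one_v]
    · simp [mul_v, one_v]
  inv_mul_cancel x := by
    apply ext'
    · simp [mul_w, one_w, inv_w, inv_v]
    · simp [mul_v, one_v, inv_v]

theorem mul_self (x : TwoStep b) : x * x = ⟨b x.v x.v, 0⟩ := by
  apply ext'
  · rw [mul_w, ZModModule.add_self, zero_add]
  · rw [mul_v, ZModModule.add_self]

/-- Every generating set contains many elements with a common nontrivial square. -/
theorem exists_common_square (hb : ∀ v, v ≠ 0 → b v v ≠ 0) (μ : Cardinal.{u}) (hμ : ℵ₀ ≤ μ)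
    (hW : #W ≤ μ) (hV : μ < Module.rank (ZMod 2) V) (H : Set (TwoStep b))
    (hH : Subgroup.closure H = ⊤) :
    ∃ z : TwoStep b, z ≠ 1 ∧ z.v = 0 ∧ ∃ T : Set (TwoStep b), T ⊆ H ∧ μ < #T ∧
      ∀ h ∈ T, h.v ≠ 0 ∧ h * h = z := by
  classical
  let H' : Set (TwoStep b) := {h | h ∈ H ∧ h.v ≠ 0}
  have hspan : Submodule.span (ZMod 2) ((fun x : TwoStep b => x.v) '' H') = ⊤ := by
    rw [Submodule.eq_top_iff']
    intro v
    have hall : ∀ x ∈ Subgroup.closure H,
        x.v ∈ Submodule.span (ZMod 2) ((fun x : TwoStep b => x.v) '' H') := by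
      intro x hx
      induction hx using Subgroup.closure_induction with
      | mem x hx =>
        by_cases h0 : x.v = 0
        · rw [h0]; exact Submodule.zero_mem _
        · exact Submodule.subset_span ⟨x, ⟨hx, h0⟩, rfl⟩
      | one => rw [one_v]; exact Submodule.zero_mem _
      | mul x y _ _ hx hy => rw [mul_v]; exact Submodule.add_mem _ hx hy
      | inv x _ hx => rw [inv_v]; exact Submodule.neg_mem _ hx
    have := hall ⟨0, v⟩ (by rw [hH]; trivial)
    exact this
  have hcard : μ < #H' := by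
    have h1 := rank_span_le (R := ZMod 2) ((fun x : TwoStep b => x.v) '' H')
    rw [hspan, rank_top] at h1
    exact lt_of_lt_of_le hV (le_trans h1 Cardinal.mk_image_le)
  let φ : H' → W := fun h => b h.1.v h.1.v
  obtain ⟨w, hw⟩ : ∃ w : W, μ < #{x : H' // φ x = w} := by
    by_contra hcon
    push Not at hcon
    have h1 : #H' = Cardinal.sum fun w : W => #{x : H' // φ x = w} := by
      rw [← Cardinal.mk_sigma]
      exact (Cardinal.mk_congr (Equiv.sigmaFiberEquiv φ)).symm
    have h2 : #H' ≤ #W * μ := by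
      rw [h1, ← Cardinal.sum_const']
      exact Cardinal.sum_le_sum _ _ hcon
    have h3 : #W * μ ≤ μ := le_trans (mul_le_mul_left hW _) (Cardinal.mul_eq_self hμ).le
    exact absurd (lt_of_lt_of_le hcard (le_trans h2 h3)) (lt_irrefl _)
  let T : Set (TwoStep b) := {h | h ∈ H' ∧ b h.v h.v = w}
  have hT : #{x : H' // φ x = w} ≤ #T :=
    Cardinal.mk_le_of_injective (f := fun x => (⟨x.1.1, x.1.2, x.2⟩ : T)) (by
      intro x y hxy
      have := congrArg (fun t : T => t.1) hxy
      exact Subtype.ext (Subtype.ext this))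
  have hTne : T.Nonempty := by
    by_contra hne
    rw [Set.not_nonempty_iff_eq_empty] at hne
    have h1 : #T = 0 := by rw [hne]; exact Cardinal.mk_eq_zero _
    rw [h1] at hT
    have h2 := lt_of_lt_of_le hw hT
    exact absurd h2 (not_lt.mpr (zero_le))
  obtain ⟨h0, h0T⟩ := hTne
  refine ⟨⟨w, 0⟩, ?_, rfl, T, fun h hh => hh.1.1, lt_of_lt_of_le hw hT, ?_⟩
  · intro h
    have h1 : w = 0 := congrArg TwoStep.w h
    exact hb _ h0T.1.2 (h0T.2.trans h1)
  · intro h hh
    refine ⟨hh.1.2, ?_⟩
    rw [mul_self, hh.2]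

end TwoStep

section Tree

variable {κ : Type u} [LinearOrder κ] [WellFoundedLT κ]

/-- The least index at which two functions differ. -/
noncomputable def dif (f g : κ → Bool) (h : f ≠ g) : κ :=
  wellFounded_lt.min {ξ | f ξ ≠ g ξ} (Function.ne_iff.mp h)

theorem dif_ne (f g : κ → Bool) (h : f ≠ g) : f (dif f g h) ≠ g (dif f g h) :=
  WellFounded.min_mem wellFounded_lt {ξ | f ξ ≠ g ξ} (Function.ne_iff.mp h)

theorem eq_of_lt_dif (f g : κ → Bool) (h : f ≠ g) {ξ : κ} (hξ : ξ < dif f g h) : f ξ = g ξ := by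
  by_contra hcon
  exact WellFounded.not_lt_min wellFounded_lt {ξ | f ξ ≠ g ξ} hcon hξ

theorem dif_comm (f g : κ → Bool) (h : f ≠ g) : dif g f h.symm = dif f g h := by
  rcases lt_trichotomy (dif g f h.symm) (dif f g h) with hl | he | hl
  · exact absurd (eq_of_lt_dif f g h hl).symm (dif_ne g f h.symm)
  · exact he
  · exact absurd (eq_of_lt_dif g f h.symm hl).symm (dif_ne f g h)

/-- If two functions agree up to and including `ξ`, they differ later. -/
theorem lt_dif (f g : κ → Bool) (h : f ≠ g) {ξ : κ} (h1 : ∀ η, η < ξ → f η = g η)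
    (h2 : f ξ = g ξ) : ξ < dif f g h := by
  by_contra hcon
  rcases lt_or_eq_of_le (not_lt.mp hcon) with hl | he
  · exact dif_ne f g h (h1 _ hl)
  · exact dif_ne f g h (he ▸ h2)

/-- Labels: an extra label, and the proper initial segments of functions `κ → Bool`. -/
abbrev Lab (κ : Type u) [LinearOrder κ] : Type u := Option (Σ ξ : κ, ({η // η < ξ} → Bool))

/-- The initial segment of `f` below `ξ`. -/
def seg (f : κ → Bool) (ξ : κ) : Σ ξ : κ, ({η // η < ξ} → Bool) := ⟨ξ, fun η => f η⟩

omit [WellFoundedLT κ] in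
theorem seg_inj {f g : κ → Bool} {ξ ζ : κ} (h : seg f ξ = seg g ζ) :
    ξ = ζ ∧ ∀ η, η < ξ → f η = g η := by
  have h1 := Sigma.mk.inj_iff.mp h
  obtain ⟨rfl, h2⟩ := h1
  have h3 := eq_of_heq h2
  exact ⟨rfl, fun η hη => congrFun h3 ⟨η, hη⟩⟩

open Classical in
/-- The coefficient of the bilinear map at a pair of basis vectors. -/
noncomputable def coef (f g : κ → Bool) : Lab κ →₀ ZMod 2 :=
  if h : f = g then Finsupp.single none 1
  else if f (dif f g h) = false then Finsupp.single (some (seg f (dif f g h))) 1 else 0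

/-- The bilinear map. -/
noncomputable def treeMap (κ : Type u) [LinearOrder κ] [WellFoundedLT κ] :
    ((κ → Bool) →₀ ZMod 2) →ₗ[ZMod 2] ((κ → Bool) →₀ ZMod 2) →ₗ[ZMod 2] (Lab κ →₀ ZMod 2) :=
  Finsupp.linearCombination (ZMod 2) fun f => Finsupp.linearCombination (ZMod 2) (coef f)

theorem treeMap_apply (v : (κ → Bool) →₀ ZMod 2) (j : Lab κ) :
    treeMap κ v v j = ∑ f ∈ v.support, ∑ g ∈ v.support, coef f g j := by
  classical
  have h1 : ∀ f ∈ v.support, v f = 1 := by
    intro f hf
    have := Finsupp.mem_support_iff.mp hf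
    revert this
    generalize v f = a
    revert a
    decide
  rw [treeMap, Finsupp.linearCombination_apply, Finsupp.sum, LinearMap.sum_apply,
    Finsupp.finsetSum_apply]
  refine Finset.sum_congr rfl fun f hf => ?_
  rw [LinearMap.smul_apply, h1 f hf, one_smul, Finsupp.linearCombination_apply, Finsupp.sum,
    Finsupp.finsetSum_apply]
  refine Finset.sum_congr rfl fun g hg => ?_
  rw [h1 g hg, one_smul]

/-- The quadratic map is anisotropic. -/
theorem treeMap_ne_zero (v : (κ → Bool) →₀ ZMod 2) (hv : v ≠ 0) : treeMap κ v v ≠ 0 := by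
  classical
  intro hzero
  have hne : v.support.Nonempty := Finsupp.support_nonempty_iff.mpr hv
  by_cases htwo : ∃ f ∈ v.support, ∃ g ∈ v.support, f ≠ g
  · obtain ⟨f, hf, g, hg, hfg⟩ := htwo
    let D : (κ → Bool) × (κ → Bool) → WithBot κ := fun p =>
      if h : p.1 = p.2 then ⊥ else ((dif p.1 p.2 h : κ) : WithBot κ)
    obtain ⟨p, hp, hmax⟩ := Finset.exists_max_image v.support.offDiag D
      ⟨(f, g), Finset.mem_offDiag.mpr ⟨hf, hg, hfg⟩⟩
    rw [Finset.mem_offDiag] at hp
    obtain ⟨f₀, g₀, hf₀, hg₀, hfg₀, hval, hmax₀⟩ : ∃ f₀ g₀, f₀ ∈ v.support ∧ g₀ ∈ v.support ∧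
        ∃ h : f₀ ≠ g₀, f₀ (dif f₀ g₀ h) = false ∧ ∀ f' ∈ v.support, ∀ g' ∈ v.support,
          ∀ h' : f' ≠ g', dif f' g' h' ≤ dif f₀ g₀ h := by
      have hmax' : ∀ f' ∈ v.support, ∀ g' ∈ v.support, ∀ h' : f' ≠ g',
          dif f' g' h' ≤ dif p.1 p.2 hp.2.2 := by
        intro f' hf' g' hg' h'
        have h1 := hmax (f', g') (Finset.mem_offDiag.mpr ⟨hf', hg', h'⟩)
        simp only [D, dif_neg h', dif_neg hp.2.2] at h1
        exact WithBot.coe_le_coe.mp h1
      rcases Bool.eq_false_or_eq_true (p.1 (dif p.1 p.2 hp.2.2)) with ht | hfalse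
      · refine ⟨p.2, p.1, hp.2.1, hp.1, hp.2.2.symm, ?_, ?_⟩
        · rw [dif_comm p.1 p.2 hp.2.2]
          have := dif_ne p.1 p.2 hp.2.2
          rw [ht] at this
          revert this
          generalize p.2 (dif p.1 p.2 hp.2.2) = c
          revert c
          decide
        · rw [dif_comm p.1 p.2 hp.2.2]
          exact hmax'
      · exact ⟨p.1, p.2, hp.1, hp.2.1, hp.2.2, hfalse, hmax'⟩
    have hkey : treeMap κ v v (some (seg f₀ (dif f₀ g₀ hfg₀))) = 1 := by
      rw [treeMap_apply, Finset.sum_eq_single f₀, Finset.sum_eq_single g₀]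
      · rw [coef, dif_neg hfg₀, if_pos hval, Finsupp.single_eq_same]
      · intro g' hg' hne'
        rw [coef]
        split_ifs with h1 h2
        · rw [Finsupp.single_apply, if_neg (by simp)]
        · rw [Finsupp.single_apply, if_neg]
          intro h3
          obtain ⟨h4, h5⟩ := seg_inj (Option.some.inj h3)
          have h6 : g' (dif f₀ g₀ hfg₀) = g₀ (dif f₀ g₀ hfg₀) := by
            have h7 := dif_ne f₀ g' h1
            have h8 := dif_ne f₀ g₀ hfg₀
            rw [h4] at h7
            rw [hval] at h7 h8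
            revert h7 h8
            generalize g' (dif f₀ g₀ hfg₀) = c
            generalize g₀ (dif f₀ g₀ hfg₀) = d
            revert c d
            decide
          have h9 := lt_dif g' g₀ hne' (fun η hη => by
            rw [← eq_of_lt_dif f₀ g' h1 (by rw [h4]; exact hη), eq_of_lt_dif f₀ g₀ hfg₀ hη]) h6
          exact absurd (hmax₀ g' hg' g₀ hg₀ hne') (not_le.mpr h9)
        · rfl
      · intro h; exact absurd hg₀ h
      · intro f' hf' hne'
        refine Finset.sum_eq_zero fun g' hg' => ?_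
        rw [coef]
        split_ifs with h1 h2
        · rw [Finsupp.single_apply, if_neg (by simp)]
        · rw [Finsupp.single_apply, if_neg]
          intro h3
          obtain ⟨h4, h5⟩ := seg_inj (Option.some.inj h3)
          have h9 := lt_dif f' f₀ hne' (ξ := dif f₀ g₀ hfg₀) (fun η hη => h5 η (by rw [h4]; exact hη))
            (by rw [hval, ← h4, h2])
          exact absurd (hmax₀ f' hf' f₀ hf₀ hne') (not_le.mpr h9)
        · rfl
      · intro h; exact absurd hf₀ h
    rw [hzero] at hkey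
    exact absurd hkey (by simp)
  · push Not at htwo
    obtain ⟨f, hf⟩ := hne
    have hkey : treeMap κ v v none = 1 := by
      rw [treeMap_apply, Finset.sum_eq_single f, Finset.sum_eq_single f]
      · rw [coef, dif_pos rfl, Finsupp.single_eq_same]
      · intro g hg hne'
        exact absurd (htwo g hg f hf) hne'
      · intro h; exact absurd hf h
      · intro g hg hne'
        exact absurd (htwo g hg f hf) hne'
      · intro h; exact absurd hf h
    rw [hzero] at hkey
    exact absurd hkey (by simp)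

end Tree

/-- A well-ordered type all of whose proper initial segments have small power sets, but whose own
power set is large. -/
theorem exists_index (μ : Cardinal.{u}) : ∃ (κ : Type u) (_ : LinearOrder κ) (_ : WellFoundedLT κ),
    #κ ≤ μ ∧ μ < 2 ^ #κ ∧ ∀ ξ : κ, (2 : Cardinal.{u}) ^ #{η // η < ξ} ≤ μ := by
  let S : Set Cardinal.{u} := {c | μ < 2 ^ c}
  have hS : S.Nonempty := ⟨μ, Cardinal.cantor μ⟩
  have hmem : sInf S ∈ S := csInf_mem hS
  refine ⟨(sInf S).ord.ToType, inferInstance, inferInstance, ?_, ?_, ?_⟩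
  · rw [Cardinal.mk_ord_toType]
    exact csInf_le' (Cardinal.cantor μ)
  · rw [Cardinal.mk_ord_toType]
    exact hmem
  · intro ξ
    by_contra hcon
    have h1 : #{η // η < ξ} ∈ S := not_le.mp hcon
    have h2 : #{η // η < ξ} < sInf S := by
      have h3 := Cardinal.mk_Iio_lt ξ (by simp)
      rw [Cardinal.mk_ord_toType] at h3
      exact h3
    exact absurd (csInf_le' h1) (not_le.mpr h2)

theorem mk_lab_le {κ : Type u} [LinearOrder κ] {μ : Cardinal.{u}} (hμ : ℵ₀ ≤ μ) (h1 : #κ ≤ μ)
    (h2 : ∀ ξ : κ, (2 : Cardinal.{u}) ^ #{η // η < ξ} ≤ μ) : #(Lab κ) ≤ μ := by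
  have h3 : #(Σ ξ : κ, ({η // η < ξ} → Bool)) ≤ μ := by
    rw [Cardinal.mk_sigma]
    refine le_trans (Cardinal.sum_le_sum _ (fun _ => μ) fun ξ => ?_) ?_
    · rw [Cardinal.mk_arrow]
      simpa using h2 ξ
    · rw [Cardinal.sum_const']
      exact le_trans (mul_le_mul_left h1 _) (Cardinal.mul_eq_self hμ).le
  rw [Cardinal.mk_option]
  exact Cardinal.add_le_of_le hμ h3 (le_trans Cardinal.one_lt_aleph0.le hμ)

theorem mk_finsupp_le {α : Type u} {μ : Cardinal.{u}} (hμ : ℵ₀ ≤ μ) (h : #α ≤ μ) :
    #(α →₀ ZMod 2) ≤ μ := by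
  rcases finite_or_infinite α with hf | hi
  · have h2 : Finite (ZMod 2) := inferInstance
    have : Finite (α →₀ ZMod 2) :=
      Finite.of_injective (fun f : α →₀ ZMod 2 => (f : α → ZMod 2)) DFunLike.coe_injective
    exact le_trans (Cardinal.mk_lt_aleph0).le hμ
  · rw [Cardinal.mk_finsupp_lift_of_infinite]
    refine max_le (by simpa using h) ?_
    refine le_trans ?_ hμ
    rw [Cardinal.lift_le_aleph0]
    exact (Cardinal.lt_aleph0_of_finite _).le

/-- There is a group all of whose Cayley graphs contain every complete bipartite graph with one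
side of size at most two and the other side of size at most `μ`. -/
theorem exists_group_two (β : Type u) : ∃ (G : Type u) (_ : Group G), ∀ H : Set G,
    Subgroup.closure H = ⊤ → ∀ (α : Type u), #α ≤ 2 →
      (completeBipartiteGraph α β).IsContained (cayleyGraph H) := by
  classical
  obtain ⟨κ, _, _, h1, h2, h3⟩ := exists_index (max #β ℵ₀)
  refine ⟨TwoStep (treeMap κ), inferInstance, fun H hH α hα => ?_⟩
  have hμ : ℵ₀ ≤ max #β ℵ₀ := le_max_right _ _
  obtain ⟨z, hz1, hzv, T, hTH, hTcard, hT⟩ := TwoStep.exists_common_square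
    (b := treeMap κ) treeMap_ne_zero _ hμ (mk_finsupp_le hμ (mk_lab_le hμ h1 h3)) (by
      rw [rank_finsupp_self, Cardinal.mk_arrow]
      simpa using h2) H hH
  obtain ⟨g⟩ : Nonempty (β ↪ T) := Cardinal.le_def β T |>.mp
    (le_trans (le_max_left _ _) hTcard.le)
  have hα' : Nonempty (α ↪ ULift.{u} (Fin 2)) := by
    rw [← Cardinal.le_def]
    simpa using hα
  obtain ⟨e⟩ := hα'
  let F₀ : ULift.{u} (Fin 2) → TwoStep (treeMap κ) := fun i => if i.down = 0 then 1 else z
  have hF₀ : Function.Injective F₀ := by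
    rintro ⟨i⟩ ⟨j⟩ hij
    simp only [F₀] at hij
    fin_cases i <;> fin_cases j <;> simp_all
  have hF₀v : ∀ i, (F₀ i).v = 0 := by
    intro i
    simp only [F₀]
    split_ifs
    · rfl
    · exact hzv
  have hadj : ∀ i (t : T), (cayleyGraph H).Adj (F₀ i) t := by
    intro i t
    have hne : F₀ i ≠ t := fun h => (hT t t.2).1 (h ▸ hF₀v i)
    rw [cayleyGraph, SimpleGraph.fromRel_adj]
    refine ⟨hne, ?_⟩
    by_cases hi : i.down = 0
    · left
      refine ⟨t, hTH t.2, ?_⟩
      simp only [F₀, if_pos hi, mul_one]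
    · right
      refine ⟨t, hTH t.2, ?_⟩
      simp only [F₀, if_neg hi]
      exact (hT t t.2).2.symm
  let F : α ⊕ β → TwoStep (treeMap κ) := fun w =>
    match w with
    | Sum.inl a => F₀ (e a)
    | Sum.inr b => (g b : TwoStep (treeMap κ))
  refine ⟨⟨⟨F, ?_⟩, ?_⟩⟩
  · intro a b hab
    rcases a with i | i <;> rcases b with j | j
    · simp at hab
    · exact hadj (e i) (g j)
    · exact (hadj (e j) (g i)).symm
    · simp at hab
  · intro a b hab
    rcases a with i | i <;> rcases b with j | j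
    · exact congrArg Sum.inl (e.injective (hF₀ hab))
    · exact absurd hab (hadj (e i) (g j)).ne
    · exact absurd hab (hadj (e j) (g i)).ne'
    · exact congrArg Sum.inr (g.injective (Subtype.ext hab))

end Pool.Agent.Helper81.Cayley
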