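import Pool.Agent.Helper81.Cayley.Bipartite
import Pool.Agent.Helper81.Cayley.TreeGroup

/-!
# The avoidable complete bipartite graphs
-/

set_option autoImplicit false

namespace Pool.Agent.Helper81.Cayley

open Cardinal SimpleGraph

universe u v w

theorem Avoidable.mono {V : Type v} {V' : Type w} {Y : SimpleGraph V} {Y' : SimpleGraph V'}
    (h : Y.IsContained Y') (hY : Avoidable.{u} Y) : Avoidable.{u} Y' := by
  intro G _
  obtain ⟨H, h1, h2, h3⟩ := hY G
  exact ⟨H, h1, h2, fun hc => h3 (h.trans hc)⟩

/-- Embeddings of the sides give an embedding of complete bipartite graphs. -/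
theorem bip_mono {α β : Type v} {α' β' : Type w} (e : α ↪ α') (f : β ↪ β') :
    (completeBipartiteGraph α β).IsContained (completeBipartiteGraph α' β') := by
  refine ⟨⟨⟨Sum.map e f, ?_⟩, ?_⟩⟩
  · intro a b hab
    rcases a with i | i <;> rcases b with j | j
    · simp at hab
    · simp
    · simp
    · simp at hab
  · exact Sum.map_injective.mpr ⟨e.injective, f.injective⟩

/-- Interchanging the sides. -/
theorem bip_swap (α β : Type v) :
    (completeBipartiteGraph α β).IsContained (completeBipartiteGraph β α) := by
  refine ⟨⟨⟨Sum.swap, ?_⟩, ?_⟩⟩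
  · intro a b hab
    rcases a with i | i <;> rcases b with j | j
    · simp at hab
    · simp
    · simp
    · simp at hab
  · exact Sum.swap_leftInverse.injective

theorem fin_embedding {α : Type u} {n : ℕ} (h : (n : Cardinal.{u}) ≤ #α) :
    Nonempty (Fin n ↪ α) := by
  rw [← Cardinal.lift_mk_le']
  simpa using h

theorem embedding_fin {α : Type u} {n : ℕ} (h : #α ≤ (n : Cardinal.{u})) :
    Nonempty (α ↪ Fin n) := by
  rw [← Cardinal.lift_mk_le']
  simpa using h

theorem le_of_lt_succ_nat {c : Cardinal.{u}} {n : ℕ} (h : c < ((n + 1 : ℕ) : Cardinal.{u})) :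
    c ≤ (n : Cardinal.{u}) := by
  obtain ⟨k, rfl⟩ := Cardinal.lt_aleph0.mp (lt_trans h (Cardinal.nat_lt_aleph0 _))
  have : k < n + 1 := by exact_mod_cast h
  exact_mod_cast Nat.lt_succ_iff.mp this

theorem avoidable_of_three_five {α β : Type u} (h1 : 3 ≤ #α) (h2 : 5 ≤ #β) :
    Avoidable.{u} (completeBipartiteGraph α β) := by
  obtain ⟨e⟩ := fin_embedding (n := 3) (by exact_mod_cast h1)
  obtain ⟨f⟩ := fin_embedding (n := 5) (by exact_mod_cast h2)
  exact Avoidable.mono (bip_mono e f) (avoidable_of_le le_rfl le_rfl)

theorem not_avoidable_two {α β : Type u} (h : #α ≤ 2) :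
    ¬ Avoidable.{u} (completeBipartiteGraph α β) := by
  intro hcon
  obtain ⟨G, _, hG⟩ := exists_group_two β
  obtain ⟨H, -, h2, h3⟩ := hcon G
  exact h3 (hG H h2 α h)

/-- The complete bipartite graph with sides `α` and `β` is avoidable if and only if both sides
have at least three vertices and one of them has at least five. -/
theorem avoidable_completeBipartite_iff (α β : Type u) :
    Avoidable.{u} (completeBipartiteGraph α β) ↔
      3 ≤ #α ∧ 3 ≤ #β ∧ (5 ≤ #α ∨ 5 ≤ #β) := by
  constructor
  · intro h
    refine ⟨?_, ?_, ?_⟩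
    · by_contra hcon
      have h1 : #α ≤ 2 := by
        have := le_of_lt_succ_nat (c := #α) (n := 2) (by push_cast; norm_num; exact not_le.mp hcon)
        exact_mod_cast this
      exact not_avoidable_two h1 h
    · by_contra hcon
      have h1 : #β ≤ 2 := by
        have := le_of_lt_succ_nat (c := #β) (n := 2) (by push_cast; norm_num; exact not_le.mp hcon)
        exact_mod_cast this
      exact not_avoidable_two h1 (Avoidable.mono (bip_swap α β) h)
    · by_contra hcon
      push Not at hcon
      have h1 := le_of_lt_succ_nat (c := #α) (n := 4) (by push_cast; norm_num; exact hcon.1)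
      have h2 := le_of_lt_succ_nat (c := #β) (n := 4) (by push_cast; norm_num; exact hcon.2)
      obtain ⟨e⟩ := embedding_fin h1
      obtain ⟨f⟩ := embedding_fin h2
      exact not_avoidable_of_le le_rfl le_rfl (Avoidable.mono (bip_mono e f) h)
  · rintro ⟨h1, h2, h3 | h3⟩
    · exact Avoidable.mono (bip_swap β α) (avoidable_of_three_five h2 h3)
    · exact avoidable_of_three_five h1 h3

end Pool.Agent.Helper81.Cayley
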