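import Mathlib

/-!
# Cayley graphs and avoidable graphs
-/

set_option autoImplicit false

namespace Pool.Agent.Helper81.Cayley

/-- The Cayley graph `X(G, H)`: distinct vertices `g`, `g'` are adjacent iff `g' = h * g` or
`g = h * g'` for some `h ∈ H`. -/
def cayleyGraph {G : Type*} [Group G] (H : Set G) : SimpleGraph G :=
  SimpleGraph.fromRel fun g g' => ∃ h ∈ H, g' = h * g

universe u v

/-- The graph `Y` is avoidable: every group `G` has a generating set `H`, not containing `1`, such
that no subgraph of `X(G, H)` is isomorphic to `Y`. -/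
def Avoidable {V : Type v} (Y : SimpleGraph V) : Prop :=
  ∀ (G : Type u) [Group G], ∃ H : Set G, (1 : G) ∉ H ∧ Subgroup.closure H = ⊤ ∧
    ¬ Y.IsContained (cayleyGraph H)

end Pool.Agent.Helper81.Cayley
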