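import Pool.Agent.Helper81.Cayley.Semi

set_option autoImplicit false

namespace Pool.Agent.Helper81.Cayley

open SimpleGraph

theorem pow_ineq {k m : ℕ} (h : k ≤ m) : 4 ^ k * k ^ k * m ^ m ≤ (k + m) ^ (k + m) := by
  have h1 : 4 ^ k * k ^ k * m ^ k ≤ (k + m) ^ (2 * k) := by
    rw [← mul_pow, ← mul_pow, pow_mul]
    apply Nat.pow_le_pow_left
    nlinarith [sq_nonneg ((k : ℤ) - m), Nat.zero_le k, sq_nonneg (m - k)]
  have h2 : m ^ (m - k) ≤ (k + m) ^ (m - k) := Nat.pow_le_pow_left (by omega) _
  calc 4 ^ k * k ^ k * m ^ m = (4 ^ k * k ^ k * m ^ k) * m ^ (m - k) := by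
        rw [mul_assoc (4 ^ k * k ^ k), ← pow_add]
        congr 2
        omega
    _ ≤ (k + m) ^ (2 * k) * (k + m) ^ (m - k) := Nat.mul_le_mul h1 h2
    _ = (k + m) ^ (k + m) := by
        rw [← pow_add]
        congr 1
        omega

theorem one_le_self_pow (n : ℕ) : 1 ≤ n ^ n := by
  rcases Nat.eq_zero_or_pos n with h | h
  · subst h; simp
  · exact Nat.one_le_pow _ _ h

/-- The adjacent ordered pairs of elements of `S`. -/
noncomputable def adjPairs {G : Type*} [Group G] (S : Finset G) : Finset (G × G) := by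
  classical
  exact (S ×ˢ S).filter fun q => (cayleyGraph (semiGen G)).Adj q.1 q.2

theorem mem_adjPairs {G : Type*} [Group G] {S : Finset G} {q : G × G} :
    q ∈ adjPairs S ↔ (q.1 ∈ S ∧ q.2 ∈ S) ∧ (cayleyGraph (semiGen G)).Adj q.1 q.2 := by
  classical
  unfold adjPairs
  rw [Finset.mem_filter, Finset.mem_product]

/-- A finite set of `n` vertices of the Cayley graph of `semiGen G` spans at most `n log₂ n`
edges. -/
theorem pairs_bound {G : Type*} [Group G] (S : Finset G) :
    2 ^ (adjPairs S).card ≤ (S.card ^ S.card) ^ 2 := by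
  classical
  induction hn : S.card using Nat.strong_induction_on generalizing S with
  | _ n ih =>
    rcases Finset.eq_empty_or_nonempty (adjPairs S) with hemp | hne
    · rw [hemp, Finset.card_empty, pow_zero]
      exact Nat.one_le_pow _ _ (one_le_self_pow n)
    · obtain ⟨N, α, h1, q, hq, hqN⟩ := exists_max_label (adjPairs S) hne fun q hq =>
        (mem_adjPairs.mp hq).2
      obtain ⟨⟨hq1, hq2⟩, hqadj⟩ := mem_adjPairs.mp hq
      let V₁ := S.filter fun x => x * q.1⁻¹ ∈ N
      let V₂ := S.filter fun x => ¬ x * q.1⁻¹ ∈ N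
      have hcard : V₁.card + V₂.card = n := by
        rw [← hn]; exact Finset.card_filter_add_card_filter_not _
      have hV₁ : 0 < V₁.card := Finset.card_pos.mpr
        ⟨q.1, Finset.mem_filter.mpr ⟨hq1, by rw [mul_inv_cancel]; exact N.one_mem⟩⟩
      have hV₂ : 0 < V₂.card := Finset.card_pos.mpr ⟨q.2, Finset.mem_filter.mpr ⟨hq2, hqN⟩⟩
      have ih1 := ih V₁.card (by omega) V₁ rfl
      have ih2 := ih V₂.card (by omega) V₂ rfl
      -- pairs between the two parts
      let C := (adjPairs S).filter fun q => q.1 ∈ V₁ ∧ q.2 ∈ V₂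
      let D := (adjPairs S).filter fun q => q.1 ∈ V₂ ∧ q.2 ∈ V₁
      have hmemV₁ : ∀ x, x ∈ V₁ ↔ x ∈ S ∧ x * q.1⁻¹ ∈ N := fun x => Finset.mem_filter
      have hmemV₂ : ∀ x, x ∈ V₂ ↔ x ∈ S ∧ ¬ x * q.1⁻¹ ∈ N := fun x => Finset.mem_filter
      have hcross : ∀ x ∈ V₁, ∀ y ∈ V₂, y * x⁻¹ ∉ N ∧ x * y⁻¹ ∉ N := by
        intro x hx y hy
        have hx' := ((hmemV₁ x).mp hx).2
        have hy' := ((hmemV₂ y).mp hy).2
        have hnot : y * x⁻¹ ∉ N := by
          intro h
          apply hy'
          have : y * q.1⁻¹ = (y * x⁻¹) * (x * q.1⁻¹) := by group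
          rw [this]
          exact N.mul_mem h hx'
        refine ⟨hnot, fun h => hnot ?_⟩
        have := N.inv_mem h
        rwa [mul_inv_rev, inv_inv] at this
      have hCfib : ∀ r ∈ C, (r.2 = α * r.1 ∨ r.2 = α⁻¹ * r.1) := by
        intro r hr
        obtain ⟨hr1, hr2, hr3⟩ := Finset.mem_filter.mp hr
        exact (h1 r hr1).resolve_left (hcross _ hr2 _ hr3).1
      have hDfib : ∀ r ∈ D, (r.2 = α * r.1 ∨ r.2 = α⁻¹ * r.1) := by
        intro r hr
        obtain ⟨hr1, hr2, hr3⟩ := Finset.mem_filter.mp hr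
        exact (h1 r hr1).resolve_left (hcross _ hr3 _ hr2).2
      -- a general counting bound
      have hcount : ∀ (E : Finset (G × G)) (A B : Finset G),
          (∀ r ∈ E, (r.1 ∈ A ∧ r.2 ∈ B) ∧ (r.2 = α * r.1 ∨ r.2 = α⁻¹ * r.1)) →
          E.card ≤ 2 * A.card ∧ E.card ≤ 2 * B.card := by
        intro E A B hE
        constructor
        · have hsub : E ⊆ (A.image fun x => (x, α * x)) ∪ (A.image fun x => (x, α⁻¹ * x)) := by
            intro r hr
            obtain ⟨⟨ha, -⟩, h | h⟩ := hE r hr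
            · exact Finset.mem_union_left _ (Finset.mem_image.mpr ⟨r.1, ha, by rw [← h]⟩)
            · exact Finset.mem_union_right _ (Finset.mem_image.mpr ⟨r.1, ha, by rw [← h]⟩)
          calc E.card ≤ _ := Finset.card_le_card hsub
            _ ≤ _ := Finset.card_union_le _ _
            _ ≤ A.card + A.card := Nat.add_le_add Finset.card_image_le Finset.card_image_le
            _ = 2 * A.card := by ring
        · have hsub : E ⊆ (B.image fun y => (α⁻¹ * y, y)) ∪ (B.image fun y => (α * y, y)) := by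
            intro r hr
            obtain ⟨⟨-, hb⟩, h | h⟩ := hE r hr
            · refine Finset.mem_union_left _ (Finset.mem_image.mpr ⟨r.2, hb, ?_⟩)
              rw [h, inv_mul_cancel_left, ← h]
            · refine Finset.mem_union_right _ (Finset.mem_image.mpr ⟨r.2, hb, ?_⟩)
              rw [h, mul_inv_cancel_left, ← h]
          calc E.card ≤ _ := Finset.card_le_card hsub
            _ ≤ _ := Finset.card_union_le _ _
            _ ≤ B.card + B.card := Nat.add_le_add Finset.card_image_le Finset.card_image_le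
            _ = 2 * B.card := by ring
      have hC := hcount C V₁ V₂ fun r hr => ⟨(Finset.mem_filter.mp hr).2, hCfib r hr⟩
      have hD := hcount D V₂ V₁ fun r hr => ⟨(Finset.mem_filter.mp hr).2, hDfib r hr⟩
      have hsub : adjPairs S ⊆ adjPairs V₁ ∪ adjPairs V₂ ∪ (C ∪ D) := by
        intro r hr
        obtain ⟨⟨hr1, hr2⟩, hr3⟩ := mem_adjPairs.mp hr
        by_cases ha : r.1 * q.1⁻¹ ∈ N <;> by_cases hb : r.2 * q.1⁻¹ ∈ N
        · refine Finset.mem_union_left _ (Finset.mem_union_left _ (mem_adjPairs.mpr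
            ⟨⟨(hmemV₁ _).mpr ⟨hr1, ha⟩, (hmemV₁ _).mpr ⟨hr2, hb⟩⟩, hr3⟩))
        · exact Finset.mem_union_right _ (Finset.mem_union_left _ (Finset.mem_filter.mpr
            ⟨hr, (hmemV₁ _).mpr ⟨hr1, ha⟩, (hmemV₂ _).mpr ⟨hr2, hb⟩⟩))
        · exact Finset.mem_union_right _ (Finset.mem_union_right _ (Finset.mem_filter.mpr
            ⟨hr, (hmemV₂ _).mpr ⟨hr1, ha⟩, (hmemV₁ _).mpr ⟨hr2, hb⟩⟩))
        · refine Finset.mem_union_left _ (Finset.mem_union_right _ (mem_adjPairs.mpr
            ⟨⟨(hmemV₂ _).mpr ⟨hr1, ha⟩, (hmemV₂ _).mpr ⟨hr2, hb⟩⟩, hr3⟩))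
      have htotal : (adjPairs S).card ≤ (adjPairs V₁).card + (adjPairs V₂).card +
          2 * (2 * min V₁.card V₂.card) := by
        have h5 := le_trans (Finset.card_le_card hsub) (le_trans (Finset.card_union_le _ _)
          (Nat.add_le_add (Finset.card_union_le _ _) (Finset.card_union_le C D)))
        have h6 : C.card ≤ 2 * min V₁.card V₂.card := by
          rcases min_choice V₁.card V₂.card with h | h <;> rw [h]
          · exact hC.1
          · exact hC.2
        have h7 : D.card ≤ 2 * min V₁.card V₂.card := by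
          rcases min_choice V₁.card V₂.card with h | h <;> rw [h]
          · exact hD.2
          · exact hD.1
        omega
      have hfinal : V₁.card ^ V₁.card * V₂.card ^ V₂.card * 4 ^ min V₁.card V₂.card ≤ n ^ n := by
        rcases le_total V₁.card V₂.card with h | h
        · rw [min_eq_left h, ← hcard]
          calc _ = 4 ^ V₁.card * V₁.card ^ V₁.card * V₂.card ^ V₂.card := by ring
            _ ≤ _ := pow_ineq h
        · rw [min_eq_right h, ← hcard, add_comm V₁.card]
          calc _ = 4 ^ V₂.card * V₂.card ^ V₂.card * V₁.card ^ V₁.card := by ring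
            _ ≤ _ := pow_ineq h
      calc 2 ^ (adjPairs S).card ≤ 2 ^ ((adjPairs V₁).card + (adjPairs V₂).card +
          2 * (2 * min V₁.card V₂.card)) := Nat.pow_le_pow_right (by norm_num) htotal
        _ = 2 ^ (adjPairs V₁).card * 2 ^ (adjPairs V₂).card * (4 ^ min V₁.card V₂.card) ^ 2 := by
          rw [pow_add, pow_add]
          congr 1
          generalize min V₁.card V₂.card = k
          rw [show (4 : ℕ) = 2 ^ 2 by norm_num, ← pow_mul, ← pow_mul]
          congr 1
          ring
        _ ≤ (V₁.card ^ V₁.card) ^ 2 * (V₂.card ^ V₂.card) ^ 2 *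
            (4 ^ min V₁.card V₂.card) ^ 2 := Nat.mul_le_mul_right _ (Nat.mul_le_mul ih1 ih2)
        _ = (V₁.card ^ V₁.card * V₂.card ^ V₂.card * 4 ^ min V₁.card V₂.card) ^ 2 := by
          rw [mul_pow, mul_pow]
        _ ≤ (n ^ n) ^ 2 := Nat.pow_le_pow_left hfinal 2

/-- A finite graph on `n` vertices with more than `n log₂ n` edges is avoidable. -/
theorem avoidable_of_many_edges {V : Type*} [Fintype V] (Y : SimpleGraph V)
    (h : Fintype.card V ^ Fintype.card V < 2 ^ Y.edgeSet.ncard) : Avoidable Y := by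
  classical
  intro G _
  refine ⟨semiGen G, one_notMem_semiGen G, closure_semiGen G, ?_⟩
  rintro ⟨f⟩
  have hinj : Function.Injective f := f.injective
  let S : Finset G := Finset.univ.image f
  have hS : S.card = Fintype.card V := by
    rw [Finset.card_image_of_injective _ hinj, Finset.card_univ]
  have hb := pairs_bound S
  rw [hS] at hb
  have hle : 2 * Y.edgeSet.ncard ≤ (adjPairs S).card := by
    have h1 : 2 * Y.edgeSet.ncard = Fintype.card Y.Dart := by
      rw [SimpleGraph.dart_card_eq_twice_card_edges, ← SimpleGraph.coe_edgeFinset,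
        Set.ncard_coe_finset]
    rw [h1, ← Finset.card_univ]
    refine Finset.card_le_card_of_injOn (fun d => (f d.fst, f d.snd)) ?_ ?_
    · intro d _
      rw [Finset.mem_coe, mem_adjPairs]
      exact ⟨⟨Finset.mem_image_of_mem _ (Finset.mem_univ _),
        Finset.mem_image_of_mem _ (Finset.mem_univ _)⟩, f.toHom.map_adj d.adj⟩
    · intro d _ d' _ hdd
      have h2 := Prod.mk.inj hdd
      have h3 := hinj h2.1
      have h4 := hinj h2.2
      exact SimpleGraph.Dart.ext _ _ (Prod.ext h3 h4)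
  have h5 : (2 ^ Y.edgeSet.ncard) ^ 2 ≤ (Fintype.card V ^ Fintype.card V) ^ 2 := by
    calc (2 ^ Y.edgeSet.ncard) ^ 2 = 2 ^ (2 * Y.edgeSet.ncard) := by
          rw [← pow_mul, mul_comm]
      _ ≤ 2 ^ (adjPairs S).card := Nat.pow_le_pow_right (by norm_num) hle
      _ ≤ _ := hb
  have h6 := (Nat.pow_le_pow_iff_left two_ne_zero).mp h5
  omega

end Pool.Agent.Helper81.Cayley
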