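import Pool.Agent.Helper81.Cayley.Bipartite

set_option autoImplicit false

namespace Pool.Agent.Helper81.Cayley

open SimpleGraph

/-- In a Cayley graph of an elementary abelian 2-group of rank at least `n` some vertex has at
least `n` neighbours. -/
theorem contains_star {G : Type*} [Group G] {N : ℕ} (e : G ≃* Multiplicative (Fin N → ZMod 2))
    (H : Set G) (h1 : (1 : G) ∉ H) (hH : Subgroup.closure H = ⊤) {m n : ℕ} (hm : m ≤ 1)
    (hn : n ≤ N) : (completeBipartiteGraph (Fin m) (Fin n)).IsContained (cayleyGraph H) := by
  classical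
  have hfin : Finite G := Finite.of_equiv _ e.toEquiv.symm
  have : Fact (Nat.Prime 2) := ⟨Nat.prime_two⟩
  have hHfin : H.Finite := Set.toFinite H
  let S : Finset (Fin N → ZMod 2) := hHfin.toFinset.image fun x => Multiplicative.toAdd (e x)
  have hspan : Submodule.span (ZMod 2) (S : Set (Fin N → ZMod 2)) = ⊤ := by
    rw [Submodule.eq_top_iff']
    intro v
    have hall : ∀ x ∈ Subgroup.closure H,
        Multiplicative.toAdd (e x) ∈ Submodule.span (ZMod 2) (S : Set (Fin N → ZMod 2)) := by
      intro x hx
      induction hx using Subgroup.closure_induction with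
      | mem x hx =>
        apply Submodule.subset_span
        rw [Finset.mem_coe, Finset.mem_image]
        exact ⟨x, (Set.Finite.mem_toFinset hHfin).mpr hx, rfl⟩
      | one => simp
      | mul x y _ _ hx hy => rw [map_mul, toAdd_mul]; exact Submodule.add_mem _ hx hy
      | inv x _ hx => rw [map_inv, toAdd_inv]; exact Submodule.neg_mem _ hx
    have := hall (e.symm (Multiplicative.ofAdd v)) (by rw [hH]; trivial)
    simpa using this
  have hcard : N ≤ S.card := by
    have h2 := finrank_span_finset_le_card (R := ZMod 2) S
    rw [Set.finrank, hspan, finrank_top, Module.finrank_fin_fun] at h2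
    exact h2
  have hcard' : n ≤ hHfin.toFinset.card := le_trans hn (le_trans hcard Finset.card_image_le)
  obtain ⟨g, hg⟩ : ∃ g : Fin n ↪ G, ∀ j, g j ∈ H := by
    let ι : Fin n ↪ {x // x ∈ hHfin.toFinset} :=
      (Fin.castLEEmb hcard').trans (hHfin.toFinset.equivFin.symm.toEmbedding)
    exact ⟨ι.trans (Function.Embedding.subtype _), fun j =>
      (Set.Finite.mem_toFinset hHfin).mp (ι j).2⟩
  have hsub : ∀ i j : Fin m, i = j := fun i j => Fin.ext (by omega)
  have key : ∀ j, (cayleyGraph H).Adj 1 (g j) := by
    intro j
    rw [cayleyGraph_adj]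
    refine ⟨fun h => h1 (h ▸ hg j), g j, hg j, Or.inl (by simp)⟩
  let F : Fin m ⊕ Fin n → G := fun w =>
    match w with
    | Sum.inl _ => 1
    | Sum.inr j => g j
  refine ⟨⟨⟨F, ?_⟩, ?_⟩⟩
  · intro a b hab
    rcases a with i | i <;> rcases b with j | j
    · simp at hab
    · exact key j
    · exact (key i).symm
    · simp at hab
  · intro a b hab
    rcases a with i | i <;> rcases b with j | j
    · rw [hsub i j]
    · exact absurd hab (key j).ne
    · exact absurd hab.symm (key i).ne
    · have := g.injective hab
      rw [this]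

universe u

/-- Stars (and edgeless graphs) are unavoidable. -/
theorem not_avoidable_star {m n : ℕ} (hm : m ≤ 1) :
    ¬ Avoidable.{u} (completeBipartiteGraph (Fin m) (Fin n)) := by
  intro h
  obtain ⟨H, h1, hH, hcon⟩ := h (ULift.{u} (Multiplicative (Fin n → ZMod 2)))
  exact hcon (contains_star MulEquiv.ulift H h1 hH hm le_rfl)

end Pool.Agent.Helper81.Cayley
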